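import Mathlib
import Pool.Agent.H3.KirchDefs
import Pool.Agent.H3.KirchMain

set_option autoImplicit false

namespace Pool.Agent.Results.MP_ff3a4f_co.PositiveFractionKirchberger

open Pool.Agent.H3.Kirch

/-- Positive-fraction version of Kirchberger's theorem, with the explicit loss
`g ε = 2 (d + 2)² ε ^ (1 / (d + 2))`. -/
theorem result (d : ℕ) (hd : 1 ≤ d) : ∃ g : ℝ → ℝ,
    Filter.Tendsto g (nhdsWithin 0 (Set.Ioi 0)) (nhds 0) ∧
    (∀ ε : ℝ, 0 ≤ ε → g ε = 2 * ((d:ℝ) + 2) ^ 2 * ε ^ (1 / ((d:ℝ) + 2))) ∧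
    ∀ ε : ℝ, 0 ≤ ε → ∀ (N : ℕ) (A B : Finset (EuclideanSpace ℝ (Fin d))), Disjoint A B →
      A.card = N → B.card = N → GeneralPosition (A ∪ B) →
      (1 - ε) * ((2 * N).choose (d + 2) : ℝ) ≤ ((goodSets A B).card : ℝ) →
      ∃ A' ⊆ A, ∃ B' ⊆ B, Separated A' B' ∧
        (1 - g ε) * N ≤ (A'.card : ℝ) ∧ (1 - g ε) * N ≤ (B'.card : ℝ) := by
  have h := main d hd
  convert h

end Pool.Agent.Results.MP_ff3a4f_co.PositiveFractionKirchberger
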